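import Pool.Agent.W2helper74.SOS.Stm

/-! Piece J5 (`A4`) of helper74's proof of the SOS conjecture. -/

open MvPolynomial
open scoped Matrix

namespace Pool.Agent.W2helper4.SOS

open Pool.Agent.W2helper74.SOS

/-- embedding as the coordinates after the first `t` -/
def embL (t b n : ℕ) : Matrix (Fin n) (Fin b) ℂ := fun i j => if (i : ℕ) = t + (j : ℕ) then 1 else 0

theorem eval_lf {j : ℕ} (w x : Fin j → ℂ) : eval x (lf w) = ∑ i, w i * x i := by
  simp [lf]

theorem eval_res {n j : ℕ} (T : Matrix (Fin n) (Fin j) ℂ) (x : Fin j → ℂ) (p : Pol n) :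
    eval x (res T p) = eval (T.mulVec x) p := by
  induction p using MvPolynomial.induction_on with
  | C a => simp [res]
  | add p q hp hq => simp [map_add, hp, hq]
  | mul_X p i hp =>
    rw [map_mul, map_mul, map_mul, hp]
    congr 1
    simp [res, eval_lf, Matrix.mulVec, dotProduct]

theorem res_mul {n j k : ℕ} (T : Matrix (Fin n) (Fin j) ℂ) (A : Matrix (Fin j) (Fin k) ℂ)
    (p : Pol n) : res (T * A) p = res A (res T p) := by
  apply MvPolynomial.funext
  intro x
  rw [eval_res, eval_res, eval_res, Matrix.mulVec_mulVec]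

theorem rs_mul {n j k : ℕ} (V : Submodule ℂ (Pol n)) (T : Matrix (Fin n) (Fin j) ℂ)
    (A : Matrix (Fin j) (Fin k) ℂ) : rs V (T * A) = rs (rs V T) A := by
  unfold rs
  rw [← Submodule.map_comp]
  congr 1
  exact LinearMap.ext fun p => res_mul T A p

theorem rk_mul_le {n j k : ℕ} (V : Submodule ℂ (Pol n)) (hV : Module.Finite ℂ V)
    (T : Matrix (Fin n) (Fin j) ℂ) (A : Matrix (Fin j) (Fin k) ℂ) : rk V (T * A) ≤ rk V T := by
  have := hV
  have : Module.Finite ℂ (rs V T) := by unfold rs; infer_instance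
  unfold rk
  rw [rs_mul]
  exact Submodule.finrank_map_le _ _

theorem rk_smul_ge {n j : ℕ} (V : Submodule ℂ (Pol n)) (hV : Module.Finite ℂ V)
    (T : Matrix (Fin n) (Fin j) ℂ) (c : ℂ) (hc : c ≠ 0) : rk V T ≤ rk V (c • T) := by
  have h : T = (c • T) * (c⁻¹ • (1 : Matrix (Fin j) (Fin j) ℂ)) := by
    rw [Matrix.mul_smul, Matrix.mul_one, smul_smul, inv_mul_cancel₀ hc, one_smul]
  calc rk V T = rk V ((c • T) * (c⁻¹ • (1 : Matrix (Fin j) (Fin j) ℂ))) := by rw [← h]
    _ ≤ _ := rk_mul_le V hV _ _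

/-- the combination map -/
noncomputable def Phi {n m a : ℕ} (p : Fin m → Pol n) (L : Matrix (Fin n) (Fin a) ℂ) :
    EuclideanSpace ℂ (Fin m) →ₗ[ℂ] Pol a :=
  ((res L).toLinearMap.comp (Fintype.linearCombination ℂ p)).comp
    (WithLp.linearEquiv 2 ℂ (Fin m → ℂ)).toLinearMap

theorem Phi_apply {n m a : ℕ} (p : Fin m → Pol n) (L : Matrix (Fin n) (Fin a) ℂ)
    (c : EuclideanSpace ℂ (Fin m)) (x : Fin a → ℂ) :
    eval x (Phi p L c) = ∑ j, c j * eval (L.mulVec x) (p j) := by
  unfold Phi
  simp only [LinearMap.comp_apply, AlgHom.toLinearMap_apply, Fintype.linearCombination_apply]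
  rw [eval_res, map_sum]
  refine Finset.sum_congr rfl fun j _ => ?_
  rw [smul_eval]
  rfl

theorem range_Phi {n m a : ℕ} (p : Fin m → Pol n) (L : Matrix (Fin n) (Fin a) ℂ) :
    LinearMap.range (Phi p L) = rs (Submodule.span ℂ (Set.range p)) L := by
  unfold Phi rs
  rw [LinearMap.range_comp_of_range_eq_top _ (LinearEquiv.range _), LinearMap.range_comp,
    Fintype.range_linearCombination]

theorem rk_add_ker {n m a : ℕ} (p : Fin m → Pol n) (L : Matrix (Fin n) (Fin a) ℂ) :
    rk (Submodule.span ℂ (Set.range p)) L + Module.finrank ℂ (LinearMap.ker (Phi p L)) = m := by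
  have h := LinearMap.finrank_range_add_finrank_ker (Phi p L)
  rw [range_Phi] at h
  rw [finrank_euclideanSpace_fin] at h
  exact h

/-- the orthogonality lemma -/
theorem orth {n m a b : ℕ} (p : Fin m → Pol n) (L : Matrix (Fin n) (Fin a) ℂ)
    (M : Matrix (Fin n) (Fin b) ℂ)
    (h : ∀ (x : Fin a → ℂ) (y : Fin b → ℂ),
      ∑ j, eval (L.mulVec x) (p j) * star (eval (M.mulVec y) (p j)) = 0) :
    rk (Submodule.span ℂ (Set.range p)) L + rk (Submodule.span ℂ (Set.range p)) M ≤ m := by
  have h1 := rk_add_ker p L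
  have h2 := rk_add_ker p M
  have hsub : (LinearMap.ker (Phi p L))ᗮ ≤ LinearMap.ker (Phi p M) := by
    intro c hc
    rw [LinearMap.mem_ker]
    apply MvPolynomial.funext
    intro y
    rw [Phi_apply, map_zero]
    set u : EuclideanSpace ℂ (Fin m) :=
      WithLp.toLp 2 (fun j => star (eval (M.mulVec y) (p j))) with hu
    have hu1 : u ∈ LinearMap.ker (Phi p L) := by
      rw [LinearMap.mem_ker]
      apply MvPolynomial.funext
      intro x
      rw [Phi_apply, map_zero, ← h x y]
      refine Finset.sum_congr rfl fun j _ => ?_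
      rw [mul_comm]
    have h3 := (Submodule.mem_orthogonal _ _).1 hc u hu1
    rw [PiLp.inner_apply] at h3
    rw [← h3]
    refine Finset.sum_congr rfl fun j _ => ?_
    simp [hu]
  have h3 := Submodule.finrank_mono hsub
  have h4 := Submodule.finrank_add_finrank_orthogonal (LinearMap.ker (Phi p L))
  rw [finrank_euclideanSpace_fin] at h4
  omega

/-- conjugation as a ring hom on matrices -/
noncomputable abbrev cj {n : ℕ} (A : Matrix (Fin n) (Fin n) ℂ) : Matrix (Fin n) (Fin n) ℂ :=
  (starRingEnd ℂ).mapMatrix A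

/-- the affine curve of matrices `S + τ (R - S)` -/
noncomputable def crv {n : ℕ} (S R : Matrix (Fin n) (Fin n) ℂ) :
    Matrix (Fin n) (Fin n) (Polynomial ℂ) :=
  S.map Polynomial.C + (Polynomial.X : Polynomial ℂ) • (R - S).map Polynomial.C

theorem crv_eval {n : ℕ} (S R : Matrix (Fin n) (Fin n) ℂ) (τ : ℂ) :
    (Polynomial.evalRingHom τ).mapMatrix (crv S R) = S + τ • (R - S) := by
  ext i j
  simp [crv]

theorem map_C_eval {n k : ℕ} (E : Matrix (Fin n) (Fin k) ℂ) (τ : ℂ) :
    (E.map (Polynomial.C : ℂ → Polynomial ℂ)).map (Polynomial.eval τ) = E := by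
  ext i j
  simp

theorem evL {n k : ℕ} (S R : Matrix (Fin n) (Fin n) ℂ) (E : Matrix (Fin n) (Fin k) ℂ) (τ : ℂ) :
    (crv S R * E.map Polynomial.C).map (Polynomial.eval τ) = (S + τ • (R - S)) * E := by
  have h : (crv S R * E.map Polynomial.C).map (Polynomial.evalRingHom τ) =
      (crv S R).map (Polynomial.evalRingHom τ) *
        (E.map Polynomial.C).map (Polynomial.evalRingHom τ) := Matrix.map_mul
  have h1 := crv_eval S R τ
  rw [RingHom.mapMatrix_apply] at h1
  rw [h1] at h
  have h2 := map_C_eval E τ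
  exact h.trans (by rw [show (E.map (Polynomial.C : ℂ → Polynomial ℂ)).map
    (Polynomial.evalRingHom τ) = E from h2])

theorem evM {n k : ℕ} (S R : Matrix (Fin n) (Fin n) ℂ) (E : Matrix (Fin n) (Fin k) ℂ) (τ : ℂ) :
    ((crv S R).adjugateᵀ * E.map Polynomial.C).map (Polynomial.eval τ) =
      (S + τ • (R - S)).adjugateᵀ * E := by
  have h : ((crv S R).adjugateᵀ * E.map Polynomial.C).map (Polynomial.evalRingHom τ) =
      ((crv S R).adjugateᵀ).map (Polynomial.evalRingHom τ) *
        (E.map Polynomial.C).map (Polynomial.evalRingHom τ) := Matrix.map_mul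
  have h1 : (crv S R).adjugate.map (Polynomial.evalRingHom τ) = (S + τ • (R - S)).adjugate := by
    rw [← crv_eval S R τ, ← RingHom.map_adjugate]
    rfl
  have h2 := map_C_eval E τ
  rw [Matrix.transpose_map, h1] at h
  exact h.trans (by rw [show (E.map (Polynomial.C : ℂ → Polynomial ℂ)).map
    (Polynomial.evalRingHom τ) = E from h2])

theorem evD {n : ℕ} (S R : Matrix (Fin n) (Fin n) ℂ) (τ : ℂ) :
    Polynomial.eval τ (crv S R).det = (S + τ • (R - S)).det := by
  rw [← crv_eval S R τ, ← RingHom.map_det]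
  rfl

theorem exW {n b t : ℕ} (h2 : B2) (V : Submodule ℂ (Pol n)) (hV : Module.Finite ℂ V)
    (W1 : Matrix (Fin n) (Fin n) ℂ) : ∃ W : Matrix (Fin n) (Fin n) ℂ, W.det ≠ 0 ∧
      rk V (W1 * embL t b n) ≤ rk V (W * embL t b n) := by
  have hf := h2 n b V hV (crv W1 1 * (embL t b n).map Polynomial.C) 0
  have hp : (crv W1 1).det ≠ 0 := by
    intro h
    have := evD W1 1 1
    rw [h] at this
    simp at this
  have hr : {τ : ℂ | Polynomial.eval τ (crv W1 1).det = 0}.Finite := by
    refine (Polynomial.finite_setOfPred_isRoot hp).subset ?_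
    intro x hx
    exact hx
  obtain ⟨τ, hτ⟩ := (hf.union hr).exists_notMem
  refine ⟨W1 + τ • (1 - W1), ?_, ?_⟩
  · rw [← evD]
    intro h
    exact hτ (Or.inr h)
  · by_contra hlt
    apply hτ
    left
    show rk V _ < rk V _
    rw [evL, evL, zero_smul, add_zero]
    omega

theorem emb_orth {n t : ℕ} (T : Matrix (Fin n) (Fin n) ℂ) (b : ℕ) :
    (emb t n)ᵀ * (Tᵀ * (T.adjugateᵀ * embL t b n)) = 0 := by
  have h : Tᵀ * T.adjugateᵀ = T.det • (1 : Matrix (Fin n) (Fin n) ℂ) := by
    rw [← Matrix.transpose_mul, Matrix.adjugate_mul, Matrix.transpose_smul, Matrix.transpose_one]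
  rw [← Matrix.mul_assoc, ← Matrix.mul_assoc, Matrix.mul_assoc (emb t n)ᵀ, h, Matrix.mul_smul,
    Matrix.mul_one, Matrix.smul_mul]
  have h2 : (emb t n)ᵀ * embL t b n = 0 := by
    ext i j
    rw [Matrix.mul_apply, Matrix.zero_apply]
    refine Finset.sum_eq_zero fun k _ => ?_
    simp only [Matrix.transpose_apply, emb, embL]
    by_cases h1 : (k : ℕ) = i
    · have h3 : ¬ (k : ℕ) = t + j := by have := i.2; omega
      simp [h3]
    · simp [h1]
  rw [h2, smul_zero]

theorem a4 (h1 : B1) (h2 : B2) (_h3 : B3) : A4 := by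
  intro n m r D d t ht htn
  have hV : Module.Finite ℂ d.V := by
    unfold Dat.V
    exact Module.Finite.span_of_finite ℂ (Set.finite_range _)
  obtain ⟨T0, hT0⟩ := (h1 n d.V hV).1 t
  obtain ⟨T1, hT1⟩ := (h1 n d.V hV).1 (n - t)
  let S : Matrix (Fin n) (Fin n) ℂ := fun i k => if h : (k : ℕ) < t then T0 i ⟨k, h⟩ else 0
  have hS : S * emb t n = T0 := by
    ext i j
    rw [Matrix.mul_apply, Finset.sum_eq_single (⟨j, by have := j.2; omega⟩ : Fin n)]
    · simp [S, emb]
    · intro k _ hk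
      have : ¬ (k : ℕ) = j := fun h => hk (Fin.ext h)
      simp [emb, this]
    · intro h
      exact absurd (Finset.mem_univ _) h
  let W1 : Matrix (Fin n) (Fin n) ℂ :=
    fun i k => if h : t ≤ (k : ℕ) then T1 i ⟨k - t, by have := k.2; omega⟩ else 0
  have hW1 : W1 * embL t (n - t) n = T1 := by
    ext i j
    rw [Matrix.mul_apply, Finset.sum_eq_single (⟨t + j, by have := j.2; omega⟩ : Fin n)]
    · simp [W1, embL]
    · intro k _ hk
      have : ¬ (k : ℕ) = t + j := fun h => hk (Fin.ext h)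
      simp [embL, this]
    · intro h
      exact absurd (Finset.mem_univ _) h
  obtain ⟨W, hWd, hW⟩ := exW (b := n - t) (t := t) h2 d.V hV W1
  rw [hW1, hT1] at hW
  -- the matrix `Q = conj R`
  set Q : Matrix (Fin n) (Fin n) ℂ := (Wᵀ).adjugate with hQ
  have hQ1 : Q.adjugateᵀ = (W.det ^ (n - 2)) • W := by
    rw [hQ, Matrix.adjugate_adjugate _ (by rw [Fintype.card_fin]; omega), Fintype.card_fin,
      Matrix.transpose_smul, Matrix.transpose_transpose, Matrix.det_transpose]
  set R : Matrix (Fin n) (Fin n) ℂ := cj Q with hR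
  have hf1 := h2 n t d.V hV (crv S R * (emb t n).map Polynomial.C) 0
  have hf2 := h2 n (n - t) d.V hV ((crv (cj S) Q).adjugateᵀ * (embL t (n - t) n).map Polynomial.C) 1
  have hf3 : ((fun x : ℝ => (x : ℂ)) ⁻¹' (_ ∪ _)).Finite :=
    (hf1.union hf2).preimage (Complex.ofReal_injective.injOn)
  obtain ⟨τ, hτ⟩ := hf3.exists_notMem
  rw [Set.mem_preimage, Set.mem_union, not_or] at hτ
  obtain ⟨hτ1, hτ2⟩ := hτ
  rw [Set.mem_ofPred_eq, not_lt, evL, evL, zero_smul, add_zero, hS, hT0] at hτ1
  rw [Set.mem_ofPred_eq, not_lt, evM, evM, one_smul, add_sub_cancel, hQ1, Matrix.smul_mul] at hτ2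
  have hτ3 := (hW.trans (rk_smul_ge d.V hV (W * embL t (n - t) n) (W.det ^ (n - 2))
    (pow_ne_zero _ hWd))).trans hτ2
  set T : Matrix (Fin n) (Fin n) ℂ := S + (τ : ℂ) • (R - S) with hT
  have hTc : cj T = cj S + (τ : ℂ) • (Q - cj S) := by
    ext i j
    simp [hT, hR]
  rw [← hTc] at hτ3
  refine (add_le_add hτ1 hτ3).trans ?_
  refine orth d.p _ _ fun x y => ?_
  rw [d.main]
  have hz : ∑ k, (T * emb t n).mulVec x k * star (((cj T).adjugateᵀ * embL t (n - t) n).mulVec y k)
      = 0 := by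
    have h4 : ∀ k, star (((cj T).adjugateᵀ * embL t (n - t) n).mulVec y k) =
        (T.adjugateᵀ * embL t (n - t) n).mulVec (star y) k := by
      intro k
      have h5 : (cj T).adjugate = cj T.adjugate := (RingHom.map_adjugate (starRingEnd ℂ) T).symm
      rw [h5]
      simp only [Matrix.mulVec, dotProduct, star_sum, Matrix.mul_apply, Matrix.transpose_apply,
        RingHom.mapMatrix_apply, Matrix.map_apply, star_mul', Pi.star_apply]
      refine Finset.sum_congr rfl fun j _ => ?_
      congr 1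
      refine Finset.sum_congr rfl fun l _ => ?_
      congr 1
      · exact Complex.conj_conj _
      · unfold embL
        split_ifs <;> simp
    simp only [h4]
    have h5 := emb_orth (t := t) T (n - t)
    have h6 : ∑ k, (T * emb t n).mulVec x k * (T.adjugateᵀ * embL t (n - t) n).mulVec (star y) k =
        dotProduct ((T * emb t n).mulVec x)
          ((T.adjugateᵀ * embL t (n - t) n).mulVec (star y)) := rfl
    rw [h6, dotProduct_comm, Matrix.dotProduct_mulVec, ← Matrix.mulVec_transpose,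
      Matrix.mulVec_mulVec, Matrix.transpose_mul, Matrix.mul_assoc, h5, Matrix.zero_mulVec,
      zero_dotProduct]
  rw [hz, zero_mul]

end Pool.Agent.W2helper4.SOS
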