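import Pool.Agent.W2helper74.SOS.Stm2
import Pool.Agent.W2helper17.SOS.DatAlg
import Pool.Agent.W2helper19.SOS.J3

/-!
# MP_ce7760_an, piece K2: removal of a common prime factor
-/

set_option linter.unusedSectionVars false

open MvPolynomial

namespace Pool.Agent.W2helper4.SOS

open Pool.Agent.W2helper74.SOS

section factor
variable {R : Type} [CommRing R] [IsDomain R] {σ : Type}

/-- the scaling map -/
noncomputable def scal : MvPolynomial σ R →ₐ[R] Polynomial (MvPolynomial σ R) :=
  aeval fun i => Polynomial.C (X i) * Polynomial.X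

lemma scal_hom {f : MvPolynomial σ R} {n : ℕ} (hf : f.IsHomogeneous n) :
    scal f = Polynomial.C f * Polynomial.X ^ n := by
  conv_lhs => rw [f.as_sum]
  conv_rhs => rw [f.as_sum]
  rw [map_sum, map_sum, Finset.sum_mul]
  apply Finset.sum_congr rfl
  intro d hd
  have hdeg : d.degree = n := by
    by_contra h
    exact (mem_support_iff.1 hd) (hf.coeff_eq_zero h)
  rw [scal, aeval_monomial, Finsupp.prod, ← hdeg, Finsupp.degree]
  rw [monomial_eq, Finsupp.prod]
  simp only [mul_pow, Finset.prod_mul_distrib, map_mul, map_prod, map_pow]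
  rw [Finset.prod_pow_eq_pow_sum, ← mul_assoc]
  rfl

lemma coeff_scal (f : MvPolynomial σ R) (n : ℕ) : (scal f).coeff n = homogeneousComponent n f := by
  conv_lhs => rw [← sum_homogeneousComponent f]
  rw [map_sum, Polynomial.finsetSum_coeff]
  have h1 : ∀ i, (scal (homogeneousComponent i f)).coeff n =
      if n = i then homogeneousComponent i f else 0 := by
    intro i
    rw [scal_hom (homogeneousComponent_isHomogeneous i f), Polynomial.coeff_C_mul_X_pow]
  simp_rw [h1]
  rw [Finset.sum_ite_eq]
  split_ifs with h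
  · rfl
  · rw [homogeneousComponent_eq_zero]
    rw [Finset.mem_range] at h
    omega

lemma scal_ne_zero {f : MvPolynomial σ R} (hf : f ≠ 0) : scal f ≠ 0 := by
  intro h
  apply hf
  rw [← sum_homogeneousComponent f]
  apply Finset.sum_eq_zero
  intro i _
  rw [← coeff_scal, h, Polynomial.coeff_zero]

lemma isHomogeneous_of_scal {f : MvPolynomial σ R}
    (h : (scal f).natDegree = (scal f).natTrailingDegree) :
    f.IsHomogeneous (scal f).natDegree := by
  have h1 : ∀ n, n ≠ (scal f).natDegree → homogeneousComponent n f = 0 := by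
    intro n hn
    rw [← coeff_scal]
    rcases lt_or_gt_of_ne hn with h2 | h2
    · rw [h] at h2
      exact Polynomial.coeff_eq_zero_of_lt_natTrailingDegree h2
    · exact Polynomial.coeff_eq_zero_of_natDegree_lt h2
  have h2 : f = homogeneousComponent (scal f).natDegree f := by
    conv_lhs => rw [← sum_homogeneousComponent f]
    by_cases h3 : (scal f).natDegree ∈ Finset.range (f.totalDegree + 1)
    · rw [Finset.sum_eq_single_of_mem _ h3]
      intro n _ hn
      exact h1 n hn
    · rw [Finset.sum_eq_zero, homogeneousComponent_eq_zero]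
      · rw [Finset.mem_range] at h3
        omega
      · intro n hn
        apply h1
        rintro rfl
        exact h3 hn
  conv_lhs => rw [h2]
  exact homogeneousComponent_isHomogeneous _ f

/-- factors of homogeneous polynomials are homogeneous -/
lemma isHomogeneous_of_mul {n : ℕ} {f g : MvPolynomial σ R} (h0 : f * g ≠ 0)
    (h : (f * g).IsHomogeneous n) :
    ∃ a b, f.IsHomogeneous a ∧ g.IsHomogeneous b ∧ a + b = n := by
  have hf : f ≠ 0 := left_ne_zero_of_mul h0
  have hg : g ≠ 0 := right_ne_zero_of_mul h0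
  have h1 := scal_hom h
  rw [map_mul] at h1
  have h2 : (scal f * scal g).natDegree = n := by
    rw [h1, Polynomial.natDegree_C_mul_X_pow _ _ h0]
  have h3 : (scal f * scal g).natTrailingDegree = n := by
    rw [h1, Polynomial.C_mul_X_pow_eq_monomial, Polynomial.natTrailingDegree_monomial h0]
  rw [Polynomial.natDegree_mul (scal_ne_zero hf) (scal_ne_zero hg)] at h2
  rw [Polynomial.natTrailingDegree_mul (scal_ne_zero hf) (scal_ne_zero hg)] at h3
  have h4 := Polynomial.natTrailingDegree_le_natDegree (scal f)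
  have h5 := Polynomial.natTrailingDegree_le_natDegree (scal g)
  exact ⟨_, _, isHomogeneous_of_scal (by omega), isHomogeneous_of_scal (by omega), h2⟩

end factor

/-- a prime does not divide all linear forms -/
lemma exists_lf (π : Pol 3) (hπ : Prime π) : ∃ u : Fin 3 → ℂ, ¬ π ∣ lf u := by
  by_contra h
  push Not at h
  have h0 : π ∣ (X 0 : Pol 3) := by
    have := h (Pi.single 0 1)
    rwa [W2helper19.SOS.lf_single] at this
  have h1 : π ∣ (X 1 : Pol 3) := by
    have := h (Pi.single 1 1)
    rwa [W2helper19.SOS.lf_single] at this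
  have h2 : Associated π (X 0 : Pol 3) := by
    have hp : Prime (X 0 : Pol 3) := MvPolynomial.X_prime
    exact hπ.associated_of_dvd hp h0
  have h3 : (X 0 : Pol 3) ∣ X 1 := h2.dvd_iff_dvd_left.1 h1
  rw [MvPolynomial.X_dvd_X] at h3
  exact absurd h3 (by decide)

/-- the family `a(w)` is divisible by a common prime factor of `V` -/
lemma dvd_alg (g : Alg 3) (π : Pol 3) (hπ : Prime π) (hV : ∀ v ∈ g.V, π ∣ v) :
    ∀ e ∈ g.E, π ∣ e := by
  obtain ⟨u, hu⟩ := exists_lf π hπ
  let W : Submodule ℂ (Pol 3) := (Ideal.span {π}).restrictScalars ℂ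
  have hW : ∀ x, x ∈ W ↔ π ∣ x := fun x => by
    show x ∈ Ideal.span {π} ↔ _
    rw [Ideal.mem_span_singleton]
  have ha : ∀ w, π ∣ g.a w := by
    intro w
    obtain ⟨d, c, hc, hs⟩ := g.hom w u
    rw [← hW, ← hc]
    refine W2helper19.SOS.coeff_mem_of_infinite W d c ?_ d le_rfl
    have h1 : {t : ℂ | π ∣ lf (t • w + u)}.Subsingleton := by
      intro t ht t' ht'
      by_contra hne
      have h2 : lf (t • w + u) = t • lf w + lf u := by
        rw [W2helper19.SOS.lf_add, W2helper19.SOS.lf_smul]
      have h3 : lf (t' • w + u) = t' • lf w + lf u := by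
        rw [W2helper19.SOS.lf_add, W2helper19.SOS.lf_smul]
      rw [Set.mem_setOf_eq, h2] at ht
      rw [Set.mem_setOf_eq, h3] at ht'
      have h4 : π ∣ (t - t') • lf w := by
        have := dvd_sub ht ht'
        rwa [add_sub_add_right_eq_sub, ← sub_smul] at this
      have h5 : π ∣ lf w := by
        have h6 : (t - t')⁻¹ • ((t - t') • lf w) = lf w := by
          rw [smul_smul, inv_mul_cancel₀ (sub_ne_zero.2 hne), one_smul]
        rw [← h6, Algebra.smul_def]
        exact h4.mul_left _
      apply hu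
      have h7 : lf u = (t • lf w + lf u) - t • lf w := by abel
      rw [h7]
      refine dvd_sub ht ?_
      rw [Algebra.smul_def]
      exact h5.mul_left _
    have h2 : {t : ℂ | π ∣ lf (t • w + u)}ᶜ.Infinite := h1.finite.infinite_compl
    refine h2.mono ?_
    intro t ht
    rw [Set.mem_compl_iff, Set.mem_setOf_eq] at ht
    rw [Set.mem_setOf_eq, ← hs, hW]
    have h3 : π ∣ lf (t • w + u) * g.a (t • w + u) := by
      apply hV
      rw [← g.spanV]
      exact Submodule.subset_span ⟨_, rfl⟩
    exact (hπ.dvd_or_dvd h3).resolve_left ht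
  intro e he
  rw [← g.spanE] at he
  rw [← hW]
  refine (Submodule.span_le.2 ?_) he
  rintro _ ⟨w, rfl⟩
  exact (hW _).2 (ha w)

theorem red : Red := by
  classical
  intro r D d π hπ hdvd
  obtain ⟨g, hgV, hgE⟩ := W2helper17.SOS.datAlg 3 4 r D d
  have hV : ∀ v ∈ g.V, π ∣ v := by
    intro v hv
    rw [hgV] at hv
    have hle : d.V ≤ (Ideal.span {π}).restrictScalars ℂ := by
      refine Submodule.span_le.2 ?_
      rintro _ ⟨j, rfl⟩
      exact Ideal.mem_span_singleton.2 (hdvd j)
    exact Ideal.mem_span_singleton.1 (hle hv)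
  have hE : ∀ i, π ∣ d.e i := by
    intro i
    apply dvd_alg g π hπ hV
    rw [hgE]
    exact Submodule.subset_span ⟨i, rfl⟩
  choose p' hp' using hdvd
  choose e' he' using hE
  have hpne : ∀ j, d.p j ≠ 0 := fun j => d.p_ind.ne_zero j
  have hene : ∀ i, d.e i ≠ 0 := fun i => d.e_ind.ne_zero i
  -- the degree of `π`
  obtain ⟨δ, b₀, hδ, -, -⟩ := isHomogeneous_of_mul (by rw [← hp' 0]; exact hpne 0)
    (by rw [← hp' 0]; exact d.p_hom 0)
  have hδ1 : 1 ≤ δ := by
    by_contra h0
    have h0 : δ = 0 := by omega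
    rw [h0] at hδ
    have h1 : π.totalDegree = 0 := Nat.le_zero.1 hδ.totalDegree_le
    rw [MvPolynomial.totalDegree_eq_zero_iff_eq_C] at h1
    apply hπ.not_unit
    rw [h1]
    refine (IsUnit.mk0 _ ?_).map C
    intro h2
    rw [h2, map_zero] at h1
    exact hπ.ne_zero h1
  have hp'h : ∀ j, ∃ b, (p' j).IsHomogeneous b ∧ δ + b = D + 1 := by
    intro j
    obtain ⟨a, b, ha, hb, hab⟩ := isHomogeneous_of_mul (by rw [← hp' j]; exact hpne j)
      (by rw [← hp' j]; exact d.p_hom j)
    have : a = δ := ha.inj_right hδ hπ.ne_zero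
    subst this
    exact ⟨b, hb, hab⟩
  have he'h : ∀ i, ∃ b, (e' i).IsHomogeneous b ∧ δ + b = D := by
    intro i
    obtain ⟨a, b, ha, hb, hab⟩ := isHomogeneous_of_mul (by rw [← he' i]; exact hene i)
      (by rw [← he' i]; exact d.e_hom i)
    have : a = δ := ha.inj_right hδ hπ.ne_zero
    subst this
    exact ⟨b, hb, hab⟩
  -- `r ≥ 1`
  have hr : 0 < r := by
    by_contra h0
    have h0 : r = 0 := by omega
    subst h0
    apply hpne 0
    refine MvPolynomial.funext fun z => ?_
    have h1 := d.main z z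
    simp only [Finset.univ_eq_empty, Finset.sum_empty, mul_zero] at h1
    have h2 : ∀ j ∈ Finset.univ, (0:ℝ) ≤ ‖eval z (d.p j)‖ ^ 2 := fun j _ => by positivity
    have h3 : ∑ j, ‖eval z (d.p j)‖ ^ 2 = 0 := by
      have : ((∑ j, ‖eval z (d.p j)‖ ^ 2 : ℝ) : ℂ) = 0 := by
        rw [← h1]
        push_cast
        refine Finset.sum_congr rfl fun j _ => ?_
        exact (Complex.mul_conj' _).symm
      exact_mod_cast this
    have h4 := (Finset.sum_eq_zero_iff_of_nonneg h2).1 h3 0 (Finset.mem_univ _)
    rw [map_zero]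
    exact norm_eq_zero.1 (pow_eq_zero_iff (two_ne_zero) |>.1 h4)
  obtain ⟨b1, -, hb1⟩ := he'h ⟨0, hr⟩
  have hδD : δ ≤ D := by omega
  -- the two polynomial identities
  set F : (Fin 3 → ℂ) → (Fin 3 → ℂ) → ℂ := fun z w =>
    ∑ j, eval z (p' j) * star (eval w (p' j)) -
      (∑ k, z k * star (w k)) * ∑ i, ∑ l, d.a i l * eval z (e' i) * star (eval w (e' l)) with hF
  have hF0 : ∀ z w, eval z π * star (eval w π) * F z w = 0 := by
    intro z w
    have h1 := d.main z w
    simp only [hp', he', map_mul, star_mul'] at h1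
    rw [← sub_eq_zero] at h1
    rw [← h1, hF]
    simp only [mul_sub]
    congr 1
    · rw [Finset.mul_sum]
      exact Finset.sum_congr rfl fun j _ => by ring
    · simp only [Finset.mul_sum, Finset.sum_mul]
      rw [Finset.sum_comm]
      rw [Finset.sum_comm]
      refine Finset.sum_congr rfl fun k _ => ?_
      refine Finset.sum_congr rfl fun i _ => ?_
      refine Finset.sum_congr rfl fun l _ => ?_
      ring
  have hFz : ∀ w, ∃ q : Pol 3, ∀ z, eval z q = F z w := by
    intro w
    refine ⟨∑ j, C (star (eval w (p' j))) * p' j -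
      (∑ k, C (star (w k)) * X k) * ∑ i, ∑ l, C (d.a i l * star (eval w (e' l))) * e' i, ?_⟩
    intro z
    simp only [hF, map_sub, map_sum, map_mul, eval_C, eval_X]
    congr 1
    · exact Finset.sum_congr rfl fun j _ => mul_comm _ _
    · congr 1
      · exact Finset.sum_congr rfl fun j _ => mul_comm _ _
      · refine Finset.sum_congr rfl fun i _ => Finset.sum_congr rfl fun l _ => ?_
        ring
  have hFw : ∀ z, ∃ q : Pol 3, ∀ w, eval w q = star (F z w) := by
    intro z
    refine ⟨∑ j, C (star (eval z (p' j))) * p' j -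
      (∑ k, C (star (z k)) * X k) *
        ∑ i, ∑ l, C (star (d.a i l) * star (eval z (e' i))) * e' l, ?_⟩
    intro w
    simp only [hF, map_sub, map_sum, map_mul, eval_C, eval_X, star_sub, star_sum, star_mul',
      star_star]
  have hF1 : ∀ z w, eval w π ≠ 0 → F z w = 0 := by
    intro z w hw
    obtain ⟨q, hq⟩ := hFz w
    have h1 : π * q = 0 := by
      refine MvPolynomial.funext fun z' => ?_
      rw [map_mul, hq, map_zero]
      have h2 := hF0 z' w
      have h3 : star (eval w π) ≠ 0 := star_ne_zero.2 hw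
      have h4 : star (eval w π) * (eval z' π * F z' w) = 0 := by rw [← h2]; ring
      exact (mul_eq_zero.1 h4).resolve_left h3
    have h2 : q = 0 := (mul_eq_zero.1 h1).resolve_left hπ.ne_zero
    rw [← hq, h2, map_zero]
  have hF2 : ∀ z w, F z w = 0 := by
    intro z w
    obtain ⟨q, hq⟩ := hFw z
    have h1 : π * q = 0 := by
      refine MvPolynomial.funext fun w' => ?_
      rw [map_mul, hq, map_zero]
      by_cases hw : eval w' π = 0
      · rw [hw, zero_mul]
      · rw [hF1 z w' hw, star_zero, mul_zero]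
    have h2 : q = 0 := (mul_eq_zero.1 h1).resolve_left hπ.ne_zero
    have h3 := hq w
    rw [h2, map_zero] at h3
    exact star_eq_zero.1 h3.symm
  refine ⟨D - δ, by omega, ⟨⟨p', e', d.a, ?_, ?_, ?_, ?_, d.a_herm, d.a_unit, ?_⟩⟩⟩
  · refine LinearIndependent.of_comp (LinearMap.mulLeft ℂ π) ?_
    have : (LinearMap.mulLeft ℂ π) ∘ p' = d.p := by
      funext j
      rw [Function.comp_apply, LinearMap.mulLeft_apply, hp' j]
    rw [this]
    exact d.p_ind
  · refine LinearIndependent.of_comp (LinearMap.mulLeft ℂ π) ?_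
    have : (LinearMap.mulLeft ℂ π) ∘ e' = d.e := by
      funext j
      rw [Function.comp_apply, LinearMap.mulLeft_apply, he' j]
    rw [this]
    exact d.e_ind
  · intro j
    obtain ⟨b, hb, hbD⟩ := hp'h j
    have : b = D - δ + 1 := by omega
    rw [← this]
    exact hb
  · intro i
    obtain ⟨b, hb, hbD⟩ := he'h i
    have : b = D - δ := by omega
    rw [← this]
    exact hb
  · intro z w
    exact sub_eq_zero.1 (hF2 z w)

end Pool.Agent.W2helper4.SOS
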